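import Pool.Agent.Work.MP_6aef45_co.Final

namespace Pool.Agent.Results.MP_6aef45_co.Threshold
open Pool.Agent.Work.MP_6aef45_co

/-- The threshold bias of the rainbow perfect matching game on `n = 2 * m` vertices satisfies
`b * log n / n ^ 2 → 1 / 2` as `n → ∞` through even integers. -/
theorem result :
    Filter.Tendsto
      (fun m : ℕ => (thresholdBias m : ℝ) * Real.log (2 * (m : ℝ)) / (2 * (m : ℝ)) ^ 2)
      Filter.atTop (nhds (1 / 2)) :=
  threshold_tendsto

end Pool.Agent.Results.MP_6aef45_co.Threshold
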